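import Pool.Agent.TH893.PG.Fin

set_option autoImplicit false

namespace Pool.Agent.Results.MP_542436_nt.GridAllHeights

open Finset
open Pool.Agent.TH893.PG

/-- Normalised coprime integer coordinates: each point `[x₀ : x₁]` of the projective line over `ℚ`
has exactly one such pair. -/
def Coord (x : ℤ × ℤ) : Prop := IsCoprime x.1 x.2 ∧ (0 < x.2 ∨ x.2 = 0 ∧ 0 < x.1)

/-- `x₀ a₁ - x₁ a₀`, zero if and only if the points `x` and `a` are equal. -/
def wedge (x a : ℤ × ℤ) : ℤ := x.1 * a.2 - x.2 * a.1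

/-- The equation of the union of the fibres `s = α_i` (for coprime coordinates of the `α_i`). -/
def form {q : ℕ} (α : Fin q → ℤ × ℤ) (x : ℤ × ℤ) : ℤ := ∏ i, wedge x (α i)

/-- The sum over the primes `p ∉ S` of `min (log p, v_p(n) log p)`. -/
noncomputable def trunc (S : Finset ℕ) (n : ℤ) : ℝ :=
  ∑ p ∈ n.natAbs.primeFactors \ S, Real.log (p : ℝ)

/-- The points `P = (x, y)` of `ℙ¹ × ℙ¹` over `ℚ` off the grid `D = ⋃ {s = α_i} ∪ ⋃ {t = β_j}`, of
whatever height, with truncated counting function `N^(1)_D(P) ≤ log X`: here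
`F(x, y) = ∏ (x ∧ α_i) ∏ (y ∧ β_j)` is the equation of `D`, and the local height of `D` at `p` is
`v_p(F(x, y)) log p`. The primes of `S` are not counted. -/
def Pts {q r : ℕ} (α : Fin q → ℤ × ℤ) (β : Fin r → ℤ × ℤ) (S : Finset ℕ) (X : ℝ) :
    Set ((ℤ × ℤ) × (ℤ × ℤ)) :=
  {P | Coord P.1 ∧ Coord P.2 ∧ form α P.1 * form β P.2 ≠ 0 ∧
    trunc S (form α P.1 * form β P.2) ≤ Real.log X}

/-- The same, with the sum of the truncated counting functions of the two parts of `D`. -/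
def PtsSum {q r : ℕ} (α : Fin q → ℤ × ℤ) (β : Fin r → ℤ × ℤ) (S : Finset ℕ) (X : ℝ) :
    Set ((ℤ × ℤ) × (ℤ × ℤ)) :=
  {P | Coord P.1 ∧ Coord P.2 ∧ form α P.1 * form β P.2 ≠ 0 ∧
    trunc S (form α P.1) + trunc S (form β P.2) ≤ Real.log X}

theorem form_eq {q : ℕ} (α : Fin q → ℤ × ℤ) (x : ℤ × ℤ) : form α x = pw α x := rfl

theorem trunc_eq (S : Finset ℕ) (n : ℤ) : trunc S n = lS S n := rfl

/-- **Truncated counting function of a grid, all heights.** Let `3 ≤ q ≤ r`, let `α_1, …, α_q` and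
`β_1, …, β_r` be distinct points of the projective line over `ℚ`, and `S` a finite set of primes.

(1) The number of all points `P` off `D`, of whatever height, with `N^(1)_D(P) ≤ log X` is at most
`C X^(θ+ε)` with `θ = max (2/q, 2/(3q) + 2/r)`; if `3 q ≤ 2 r`, then `θ = 2/q`.
(2) With the sum of the truncated counting functions of the two parts of `D` the bound is
`C X^(2/q+ε)` for all `3 ≤ q ≤ r`.
(3) For large `X` the number of points in (2), hence that in (1), is at least `c X^(2/q)`. -/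
theorem result (q r : ℕ) (hq : 3 ≤ q) (hqr : q ≤ r) (α : Fin q → ℤ × ℤ) (β : Fin r → ℤ × ℤ)
    (_hαc : ∀ i, IsCoprime (α i).1 (α i).2) (hβc : ∀ j, IsCoprime (β j).1 (β j).2)
    (hα : ∀ i j, i ≠ j → (α i).1 * (α j).2 ≠ (α j).1 * (α i).2)
    (hβ : ∀ i j, i ≠ j → (β i).1 * (β j).2 ≠ (β j).1 * (β i).2) (S : Finset ℕ) :
    (∀ ε : ℝ, 0 < ε → ∃ C : ℝ, 0 < C ∧ ∀ X : ℝ, 1 ≤ X → (Pts α β S X).Finite ∧
      ((Pts α β S X).ncard : ℝ) ≤
        C * X ^ (max (2 / (q : ℝ)) (2 / (3 * (q : ℝ)) + 2 / (r : ℝ)) + ε)) ∧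
    (3 * q ≤ 2 * r → max (2 / (q : ℝ)) (2 / (3 * (q : ℝ)) + 2 / (r : ℝ)) = 2 / (q : ℝ)) ∧
    (∀ ε : ℝ, 0 < ε → ∃ C : ℝ, 0 < C ∧ ∀ X : ℝ, 1 ≤ X → (PtsSum α β S X).Finite ∧
      ((PtsSum α β S X).ncard : ℝ) ≤ C * X ^ (2 / (q : ℝ) + ε)) ∧
    (∃ c : ℝ, 0 < c ∧ ∃ X₀ : ℝ, ∀ X : ℝ, X₀ ≤ X →
      c * X ^ (2 / (q : ℝ)) ≤ ((PtsSum α β S X).ncard : ℝ) ∧
      PtsSum α β S X ⊆ Pts α β S X) := by
  classical
  obtain ⟨σ, hσ⟩ : ∃ σ : ℝ, σ = ∑ p ∈ S, Real.log (p : ℝ) := ⟨_, rfl⟩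
  have hσ0 : 0 ≤ σ := by
    rw [hσ]; exact Finset.sum_nonneg fun p _ => Real.log_natCast_nonneg p
  have hqR : (3 : ℝ) ≤ q := by exact_mod_cast hq
  have hq0 : (0 : ℝ) < q := by linarith
  have hqrR : (q : ℝ) ≤ r := by exact_mod_cast hqr
  have hr0 : (0 : ℝ) < r := by linarith
  have hrq : 2 / (r : ℝ) ≤ 2 / q := div_le_div_of_nonneg_left (by norm_num) hq0 hqrR
  obtain ⟨d, hd⟩ : ∃ d, q = d + 3 := ⟨q - 3, by omega⟩
  obtain ⟨e, he⟩ : ∃ e, r = e + 3 := ⟨r - 3, by omega⟩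
  have hdR : (q : ℝ) = (d : ℝ) + 3 := by rw [hd]; push_cast; ring
  have heR : (r : ℝ) = (e : ℝ) + 3 := by rw [he]; push_cast; ring
  have main1 : ∀ ε : ℝ, 0 < ε → ∃ C : ℝ, 0 < C ∧ ∀ X : ℝ, 1 ≤ X → (Pts α β S X).Finite ∧
      ((Pts α β S X).ncard : ℝ) ≤
        C * X ^ (max (2 / (q : ℝ)) (2 / (3 * (q : ℝ)) + 2 / (r : ℝ)) + ε) := by
    intro ε hε
    obtain ⟨θ, hθ⟩ : ∃ θ : ℝ, θ = max (2 / (q : ℝ)) (2 / (3 * (q : ℝ)) + 2 / (r : ℝ)) := ⟨_, rfl⟩
    have t1 : 2 / (q : ℝ) ≤ θ := by rw [hθ]; exact le_max_left _ _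
    have t2 : 2 / (3 * (q : ℝ)) + 2 / (r : ℝ) ≤ θ := by rw [hθ]; exact le_max_right _ _
    rw [← hθ]
    subst hd he
    rw [hdR] at t1
    rw [hdR, heR] at t2
    obtain ⟨D, hD, h⟩ := pairs_upper (FL α hα) (FL β hβ) ε θ hε t1 t2
    refine ⟨D * Real.exp ((θ + ε) * σ), by positivity, fun X hX => fin_of fun F hF => ?_⟩
    have hX0 : 0 < X := by linarith
    have hl := Real.log_nonneg hX
    refine (h (Real.log X + σ) (by linarith) F fun P hP => ?_).trans (le_of_eq ?_)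
    · obtain ⟨a1, a2, a3, a4⟩ := hF (Finset.mem_coe.2 hP)
      have b1 : pw α P.1 ≠ 0 := left_ne_zero_of_mul a3
      have b2 : pw β P.2 ≠ 0 := right_ne_zero_of_mul a3
      refine ⟨pt_of α hα a1.1 b1, pt_of β hβ a2.1 b2, ?_⟩
      have := union_le α β hα hβ S b1 b2
      rw [trunc_eq, form_eq, form_eq] at a4
      rw [← hσ] at this
      linarith
    · rw [Real.rpow_def_of_pos hX0, mul_assoc, ← Real.exp_add]
      congr 2
      ring
  have main2 : ∀ ε : ℝ, 0 < ε → ∃ C : ℝ, 0 < C ∧ ∀ X : ℝ, 1 ≤ X → (PtsSum α β S X).Finite ∧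
      ((PtsSum α β S X).ncard : ℝ) ≤ C * X ^ (2 / (q : ℝ) + ε) := by
    intro ε hε
    obtain ⟨θ, hθ⟩ : ∃ θ : ℝ, θ = 2 / (q : ℝ) := ⟨_, rfl⟩
    have t1 : 2 / (q : ℝ) ≤ θ := hθ.ge
    have t2 : 2 / (r : ℝ) ≤ θ := by rw [hθ]; exact hrq
    rw [← hθ]
    subst hd he
    rw [hdR] at t1
    rw [heR] at t2
    obtain ⟨D, hD, h⟩ := pairs_sum (FL α hα) (FL β hβ) ε θ hε t1 t2
    refine ⟨D * Real.exp ((θ + ε) * (2 * σ)), by positivity, fun X hX => fin_of fun F hF => ?_⟩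
    have hX0 : 0 < X := by linarith
    have hl := Real.log_nonneg hX
    refine (h (Real.log X + 2 * σ) (by linarith) F fun P hP => ?_).trans (le_of_eq ?_)
    · obtain ⟨a1, a2, a3, a4⟩ := hF (Finset.mem_coe.2 hP)
      have b1 : pw α P.1 ≠ 0 := left_ne_zero_of_mul a3
      have b2 : pw β P.2 ≠ 0 := right_ne_zero_of_mul a3
      refine ⟨pt_of α hα a1.1 b1, pt_of β hβ a2.1 b2, ?_⟩
      have c1 := lN_le α hα S P.1
      have c2 := lN_le β hβ S P.2
      rw [trunc_eq, trunc_eq, form_eq, form_eq] at a4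
      rw [← hσ] at c1 c2
      linarith
    · rw [Real.rpow_def_of_pos hX0, mul_assoc, ← Real.exp_add]
      congr 2
      ring
  refine ⟨main1, ?_, main2, ?_⟩
  · intro h
    refine max_eq_left ?_
    have h' : 3 * (q : ℝ) ≤ 2 * r := by exact_mod_cast h
    have e1 : 2 / (r : ℝ) ≤ 4 / (3 * q) := by
      rw [div_le_div_iff₀ hr0 (by positivity)]
      linarith
    have e2 : 2 / (q : ℝ) = 2 / (3 * q) + 4 / (3 * q) := by field_simp; ring
    linarith
  · obtain ⟨c, hc, X0, hlow⟩ := line_lower q hq α hα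
    obtain ⟨y, hy1, hy2⟩ := exists_off β hβc
    obtain ⟨τ, hτ⟩ : ∃ τ : ℝ, τ = lS S (pw β y) := ⟨_, rfl⟩
    have hτ0 : 0 ≤ τ := by rw [hτ]; exact lS_nonneg _ _
    refine ⟨c * Real.exp (-τ) ^ (2 / (q : ℝ)), by positivity,
      max 1 (max X0 1 * Real.exp τ), fun X hX => ⟨?_, ?_⟩⟩
    · have hX1 : 1 ≤ X := (le_max_left _ _).trans hX
      have hX0 : 0 < X := by linarith
      obtain ⟨C', -, hC'⟩ := main2 1 one_pos
      have hfin := (hC' X hX1).1
      have hXτ : X0 ≤ X * Real.exp (-τ) := by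
        have h1 : max X0 1 * Real.exp τ ≤ X := (le_max_right _ _).trans hX
        have h2 : max X0 1 * Real.exp τ * Real.exp (-τ) ≤ X * Real.exp (-τ) :=
          mul_le_mul_of_nonneg_right h1 (Real.exp_pos _).le
        rw [mul_assoc, ← Real.exp_add, add_neg_cancel, Real.exp_zero, mul_one] at h2
        exact (le_max_left _ _).trans h2
      obtain ⟨G, hG1, hG2⟩ := hlow (X * Real.exp (-τ)) hXτ
      rw [Real.mul_rpow hX0.le (Real.exp_pos _).le] at hG1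
      have hsub : ((G.image fun x => (x, y) : Finset ((ℤ × ℤ) × (ℤ × ℤ))) :
          Set ((ℤ × ℤ) × (ℤ × ℤ))) ⊆ PtsSum α β S X := by
        intro P hP
        rw [Finset.mem_coe, Finset.mem_image] at hP
        obtain ⟨x, hx, rfl⟩ := hP
        obtain ⟨g1, g2, g3⟩ := hG2 x hx
        have g4 : pw α x ≠ 0 := Finset.prod_ne_zero_iff.2 fun i _ => g2 i
        refine ⟨g1, hy1, mul_ne_zero g4 hy2, ?_⟩
        show trunc S (form α x) + trunc S (form β y) ≤ Real.log X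
        rw [trunc_eq, trunc_eq, form_eq, form_eq, ← hτ]
        have h5 := lS_le_log S g4
        have h6 : Real.log ((pw α x).natAbs : ℝ) ≤ Real.log (X * Real.exp (-τ)) := g3
        rw [Real.log_mul hX0.ne' (Real.exp_pos _).ne', Real.log_exp] at h6
        linarith
      have h7 : (G.card : ℝ) ≤ ((PtsSum α β S X).ncard : ℝ) := by
        have h8 : (G.image fun x => (x, y)).card ≤ (PtsSum α β S X).ncard := by
          rw [← Set.ncard_coe_finset]
          exact Set.ncard_le_ncard hsub hfin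
        rw [Finset.card_image_of_injective _ (fun x x' hxx => (Prod.mk.inj hxx).1)] at h8
        exact_mod_cast h8
      refine le_trans (le_of_eq ?_) (hG1.trans h7)
      ring
    · intro P hP
      obtain ⟨a1, a2, a3, a4⟩ := hP
      refine ⟨a1, a2, a3, le_trans ?_ a4⟩
      exact lS_mul_le S (left_ne_zero_of_mul a3) (right_ne_zero_of_mul a3)

end Pool.Agent.Results.MP_542436_nt.GridAllHeights
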