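import Pool.Agent.TH893.PG.Box
import Pool.Agent.TH893.PG.Fin

set_option autoImplicit false

namespace Pool.Agent.Results.MP_542436_nt.OneBoundedCoordinate

open Finset
open Pool.Agent.TH893.PG

/-- Normalised coprime integer coordinates: each point `[x₀ : x₁]` of the projective line over `ℚ`
has exactly one such pair. -/
def Coord (x : ℤ × ℤ) : Prop := IsCoprime x.1 x.2 ∧ (0 < x.2 ∨ x.2 = 0 ∧ 0 < x.1)

/-- The height `max (|x₀|, |x₁|)`. -/
def height (x : ℤ × ℤ) : ℕ := max x.1.natAbs x.2.natAbs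

/-- `x₀ a₁ - x₁ a₀`, zero if and only if the points `x` and `a` are equal. -/
def wedge (x a : ℤ × ℤ) : ℤ := x.1 * a.2 - x.2 * a.1

/-- The equation of the union of the fibres `s = α_i` (for coprime coordinates of the `α_i`). -/
def form {q : ℕ} (α : Fin q → ℤ × ℤ) (x : ℤ × ℤ) : ℤ := ∏ i, wedge x (α i)

/-- The sum over the primes `p ∉ S` of `min (log p, v_p(n) log p)`. -/
noncomputable def trunc (S : Finset ℕ) (n : ℤ) : ℝ :=
  ∑ p ∈ n.natAbs.primeFactors \ S, Real.log (p : ℝ)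

/-- The points `P = (x, y)` of `ℙ¹ × ℙ¹` over `ℚ` off the grid `D = ⋃ {s = α_i} ∪ ⋃ {t = β_j}` with
`N^(1)_D(P) ≤ log X` and `min (H(x), H(y)) ≤ X ^ A`; the other coordinate has any height. Here
`F(x, y) = ∏ (x ∧ α_i) ∏ (y ∧ β_j)` is the equation of `D`, the local height of `D` at `p` is
`v_p(F(x, y)) log p`, and the primes of `S` are not counted. -/
def Pts {q r : ℕ} (α : Fin q → ℤ × ℤ) (β : Fin r → ℤ × ℤ) (S : Finset ℕ) (A X : ℝ) :
    Set ((ℤ × ℤ) × (ℤ × ℤ)) :=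
  {P | Coord P.1 ∧ Coord P.2 ∧ form α P.1 * form β P.2 ≠ 0 ∧
    trunc S (form α P.1 * form β P.2) ≤ Real.log X ∧
    ((height P.1 : ℝ) ≤ X ^ A ∨ (height P.2 : ℝ) ≤ X ^ A)}

/-- **Truncated counting function of a grid, one coordinate of bounded height.** Let `3 ≤ q ≤ r`,
let `α_1, …, α_q` and `β_1, …, β_r` be distinct points of the projective line over `ℚ`, `S` a finite
set of primes and `A > 0`. The number of points `P = (x, y)` off `D` with `N^(1)_D(P) ≤ log X`, one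
of the coordinates of which has height at most `X ^ A` (the other is arbitrary), is at most
`C X ^ (2/q + ε)` for `X ≥ 1`, and at least `c X ^ (2/q)` for large `X`. -/
theorem result (q r : ℕ) (hq : 3 ≤ q) (hqr : q ≤ r) (α : Fin q → ℤ × ℤ) (β : Fin r → ℤ × ℤ)
    (_hαc : ∀ i, IsCoprime (α i).1 (α i).2) (hβc : ∀ j, IsCoprime (β j).1 (β j).2)
    (hα : ∀ i j, i ≠ j → (α i).1 * (α j).2 ≠ (α j).1 * (α i).2)
    (hβ : ∀ i j, i ≠ j → (β i).1 * (β j).2 ≠ (β j).1 * (β i).2) (S : Finset ℕ)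
    (A : ℝ) (hA : 0 < A) :
    (∀ ε : ℝ, 0 < ε → ∃ C : ℝ, 0 < C ∧ ∀ X : ℝ, 1 ≤ X → (Pts α β S A X).Finite ∧
      ((Pts α β S A X).ncard : ℝ) ≤ C * X ^ (2 / (q : ℝ) + ε)) ∧
    (∃ c : ℝ, 0 < c ∧ ∃ X₀ : ℝ, ∀ X : ℝ, X₀ ≤ X →
      c * X ^ (2 / (q : ℝ)) ≤ ((Pts α β S A X).ncard : ℝ)) := by
  classical
  obtain ⟨σ, hσ⟩ : ∃ σ : ℝ, σ = ∑ p ∈ S, Real.log (p : ℝ) := ⟨_, rfl⟩
  have hσ0 : 0 ≤ σ := by
    rw [hσ]; exact Finset.sum_nonneg fun p _ => Real.log_natCast_nonneg p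
  have hqR : (3 : ℝ) ≤ q := by exact_mod_cast hq
  have hq0 : (0 : ℝ) < q := by linarith
  have hqrR : (q : ℝ) ≤ r := by exact_mod_cast hqr
  have hr0 : (0 : ℝ) < r := by linarith
  have hrq : 2 / (r : ℝ) ≤ 2 / q := div_le_div_of_nonneg_left (by norm_num) hq0 hqrR
  obtain ⟨d, hd⟩ : ∃ d, q = d + 3 := ⟨q - 3, by omega⟩
  obtain ⟨e, he⟩ : ∃ e, r = e + 3 := ⟨r - 3, by omega⟩
  have hdR : (q : ℝ) = (d : ℝ) + 3 := by rw [hd]; push_cast; ring
  have heR : (r : ℝ) = (e : ℝ) + 3 := by rw [he]; push_cast; ring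
  have main : ∀ ε : ℝ, 0 < ε → ∃ C : ℝ, 0 < C ∧ ∀ X : ℝ, 1 ≤ X → (Pts α β S A X).Finite ∧
      ((Pts α β S A X).ncard : ℝ) ≤ C * X ^ (2 / (q : ℝ) + ε) := by
    intro ε hε
    obtain ⟨θ, hθ⟩ : ∃ θ : ℝ, θ = 2 / (q : ℝ) := ⟨_, rfl⟩
    have t1 : 2 / (q : ℝ) ≤ θ := hθ.ge
    have t2 : 2 / (r : ℝ) ≤ θ := by rw [hθ]; exact hrq
    rw [← hθ]
    subst hd he
    rw [hdR] at t1
    rw [heR] at t2
    obtain ⟨δ, hδ⟩ : ∃ δ : ℝ, δ = ε / (1 + A) := ⟨_, rfl⟩
    have hδ0 : 0 < δ := by rw [hδ]; positivity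
    have hδA : δ * (1 + A) = ε := by rw [hδ]; field_simp
    obtain ⟨D, hD, h⟩ := one_upper (FL α hα) (FL β hβ) δ θ hδ0 t1 t2
    obtain ⟨D', hD', h'⟩ := one_upper (FL β hβ) (FL α hα) δ θ hδ0 t2 t1
    refine ⟨(D + D') * Real.exp ((θ + δ) * σ), by positivity, fun X hX => fin_of fun F hF => ?_⟩
    have hX0 : 0 < X := by linarith
    have hl := Real.log_nonneg hX
    have hmem : ∀ P ∈ F, Pool.Agent.TH867.QF.Pt (FL α hα) P.1 ∧
        Pool.Agent.TH867.QF.Pt (FL β hβ) P.2 ∧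
        ∑ p ∈ (Pool.Agent.TH867.QF.Np (FL α hα) P.1).primeFactors ∪
          (Pool.Agent.TH867.QF.Np (FL β hβ) P.2).primeFactors, Real.log (p : ℝ) ≤
            Real.log X + σ := by
      intro P hP
      obtain ⟨a1, a2, a3, a4, -⟩ := hF (Finset.mem_coe.2 hP)
      have b1 : pw α P.1 ≠ 0 := left_ne_zero_of_mul a3
      have b2 : pw β P.2 ≠ 0 := right_ne_zero_of_mul a3
      refine ⟨pt_of α hα a1.1 b1, pt_of β hβ a2.1 b2, ?_⟩
      have := union_le α β hα hβ S b1 b2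
      have a4' : lS S (pw α P.1 * pw β P.2) ≤ Real.log X := a4
      rw [← hσ] at this
      linarith
    have hht : ∀ {m : ℕ} (_ : 0 < m), (m : ℝ) ≤ X ^ A → Real.log m ≤ A * Real.log X := by
      intro m hm h1
      rw [← Real.log_rpow hX0]
      exact Real.log_le_log (by exact_mod_cast hm) h1
    obtain ⟨F1, hF1⟩ : ∃ F1, F1 = F.filter fun P => (height P.1 : ℝ) ≤ X ^ A := ⟨_, rfl⟩
    obtain ⟨F2, hF2⟩ : ∃ F2, F2 = F.filter fun P => (height P.2 : ℝ) ≤ X ^ A := ⟨_, rfl⟩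
    have hcov : F ⊆ F1 ∪ F2 := by
      intro P hP
      obtain ⟨-, -, -, -, h5⟩ := hF (Finset.mem_coe.2 hP)
      rw [Finset.mem_union, hF1, hF2, Finset.mem_filter, Finset.mem_filter]
      rcases h5 with h5 | h5
      · exact Or.inl ⟨hP, h5⟩
      · exact Or.inr ⟨hP, h5⟩
    have c2 := h (Real.log X + σ) (A * Real.log X) (by linarith) (by positivity) F2
      (fun P hP => by
        rw [hF2] at hP
        obtain ⟨g1, g2⟩ := Finset.mem_filter.1 hP
        obtain ⟨g3, g4, g5⟩ := hmem P g1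
        exact ⟨g3, g4, hht (Pool.Agent.TH867.QF.ht_pos g4) g2, g5⟩)
    have c1 := h' (Real.log X + σ) (A * Real.log X) (by linarith) (by positivity)
      (F1.image Prod.swap) (fun P hP => by
        obtain ⟨Q, hQ, rfl⟩ := Finset.mem_image.1 hP
        rw [hF1] at hQ
        obtain ⟨g1, g2⟩ := Finset.mem_filter.1 hQ
        obtain ⟨g3, g4, g5⟩ := hmem Q g1
        refine ⟨g4, g3, hht (Pool.Agent.TH867.QF.ht_pos g3) g2, ?_⟩
        rw [Finset.union_comm]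
        exact g5)
    rw [Finset.card_image_of_injective _ Prod.swap_injective] at c1
    have hexp : (θ + δ) * (Real.log X + σ) + δ * (A * Real.log X) =
        (θ + δ) * σ + Real.log X * (θ + ε) := by
      rw [← hδA]; ring
    rw [hexp, Real.exp_add] at c1 c2
    have h3 : (F.card : ℝ) ≤ (F1.card : ℝ) + F2.card := by
      exact_mod_cast (Finset.card_le_card hcov).trans (Finset.card_union_le _ _)
    rw [Real.rpow_def_of_pos hX0]
    calc (F.card : ℝ) ≤ (F1.card : ℝ) + F2.card := h3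
      _ ≤ D' * (Real.exp ((θ + δ) * σ) * Real.exp (Real.log X * (θ + ε))) +
          D * (Real.exp ((θ + δ) * σ) * Real.exp (Real.log X * (θ + ε))) := add_le_add c1 c2
      _ = _ := by ring
  refine ⟨main, ?_⟩
  obtain ⟨c, hc, X0, hlow⟩ := line_lower q hq α hα
  obtain ⟨y, hy1, hy2⟩ := exists_off β hβc
  obtain ⟨τ, hτ⟩ : ∃ τ : ℝ, τ = lS S (pw β y) := ⟨_, rfl⟩
  have hτ0 : 0 ≤ τ := by rw [hτ]; exact lS_nonneg _ _
  refine ⟨c * Real.exp (-τ) ^ (2 / (q : ℝ)), by positivity,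
    max (max 1 ((height y : ℝ) ^ (1 / A))) (max X0 1 * Real.exp τ), fun X hX => ?_⟩
  have hX1 : 1 ≤ X := (le_max_left _ _).trans ((le_max_left _ _).trans hX)
  have hXp : 0 < X := by linarith
  have hXy : (height y : ℝ) ≤ X ^ A := by
    have h1 : (height y : ℝ) ^ (1 / A) ≤ X :=
      (le_max_right _ _).trans ((le_max_left _ _).trans hX)
    have h2 := Real.rpow_le_rpow (by positivity) h1 hA.le
    rwa [← Real.rpow_mul (Nat.cast_nonneg _), one_div_mul_cancel hA.ne', Real.rpow_one] at h2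
  obtain ⟨C', -, hC'⟩ := main 1 one_pos
  have hfin := (hC' X hX1).1
  have hXτ : X0 ≤ X * Real.exp (-τ) := by
    have h1 : max X0 1 * Real.exp τ ≤ X := (le_max_right _ _).trans hX
    have h2 : max X0 1 * Real.exp τ * Real.exp (-τ) ≤ X * Real.exp (-τ) :=
      mul_le_mul_of_nonneg_right h1 (Real.exp_pos _).le
    rw [mul_assoc, ← Real.exp_add, add_neg_cancel, Real.exp_zero, mul_one] at h2
    exact (le_max_left _ _).trans h2
  obtain ⟨G, hG1, hG2⟩ := hlow (X * Real.exp (-τ)) hXτ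
  rw [Real.mul_rpow hXp.le (Real.exp_pos _).le] at hG1
  have hsub : ((G.image fun x => (x, y) : Finset ((ℤ × ℤ) × (ℤ × ℤ))) :
      Set ((ℤ × ℤ) × (ℤ × ℤ))) ⊆ Pts α β S A X := by
    intro P hP
    rw [Finset.mem_coe, Finset.mem_image] at hP
    obtain ⟨x, hx, rfl⟩ := hP
    obtain ⟨g1, g2, g3⟩ := hG2 x hx
    have g4 : pw α x ≠ 0 := Finset.prod_ne_zero_iff.2 fun i _ => g2 i
    refine ⟨g1, hy1, mul_ne_zero g4 hy2, ?_, Or.inr hXy⟩
    show lS S (pw α x * pw β y) ≤ Real.log X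
    refine (lS_mul_le S g4 hy2).trans ?_
    rw [← hτ]
    have h5 := lS_le_log S g4
    have h6 : Real.log ((pw α x).natAbs : ℝ) ≤ Real.log (X * Real.exp (-τ)) := g3
    rw [Real.log_mul hXp.ne' (Real.exp_pos _).ne', Real.log_exp] at h6
    linarith
  have h7 : (G.card : ℝ) ≤ ((Pts α β S A X).ncard : ℝ) := by
    have h8 : (G.image fun x => (x, y)).card ≤ (Pts α β S A X).ncard := by
      rw [← Set.ncard_coe_finset]
      exact Set.ncard_le_ncard hsub hfin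
    rw [Finset.card_image_of_injective _ (fun x x' hxx => (Prod.mk.inj hxx).1)] at h8
    exact_mod_cast h8
  refine le_trans (le_of_eq ?_) (hG1.trans h7)
  ring

end Pool.Agent.Results.MP_542436_nt.OneBoundedCoordinate
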