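import Mathlib
import Pool.Agent.TH551.HA.Jp7

/-!
# MP_542436_nt: the truncated inequality of Vojta on the product of two lines, for all simple
# normal crossings divisors and all points with sparse coordinates and sparse factorisation

Let `D` be the divisor on `P^1 x P^1` over `ℚ` with the components `D_i = {F i = 0}`, `F i`
bihomogeneous of bidegree `(q i, q' i)` in the variables `(X_0, X_1; X_2, X_3)`, such that `D` has
simple normal crossings: at each point with complex coordinates the gradients of those `F i` which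
vanish there are linearly independent (so the `D_i` are smooth and transversal and no three of them
meet). Let a finitely generated group `Γ` of rational numbers (for instance all `S`-units), the
number `k` and the shape `τ`, `e` of the factorisations be given. For every `ε > 0` there is a
proper closed subset `Z` (the union of `X_0 = 0`, `X_2 = 0` and `G (X_1 / X_0, X_3 / X_2) = 0`) and
a constant `C` such that all points `(α, β)` off `Z` and `D`, with coprime integral coordinates
`(x_0 : x_1; x_2 : x_3)` and

  `F i (x) = w i * ∏_{τ j = i} y j ^ (e j)`, `w i` integers in `Γ`,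

the integers `x_c` and `y j` being sums of `k` products of elements of `Γ` and integers of absolute
value at most `M`, satisfy

  `(∑ q i - 2 - ε) h(α) + (∑ q' i - 2 - ε) h(β) ≤ ∑ log |y j| + C (1 + log M)`.

This is the inequality of the conjecture, `N^(1)_D` being replaced by the logarithm of the radical
read off from the given factorisation.

The proof: the derivations of the field of germs, applied to the coordinates with control at all
places of `S` (by the `S`-adic subspace theorem with moving coefficients), give a section of the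
anticanonical sheaf at the point; by the Nullstellensatz it is divisible by the product of the
`y j ^ (e j - 1)` outside `S`, and dominated by the product of the `F i` at all places of `S`.
-/

set_option autoImplicit false

namespace Pool.Agent.Results.MP_542436_nt.SparseNormalCrossings

open MvPolynomial Pool.Agent.TH551.HA

theorem result (N p k : ℕ)
    (F : Fin N → MvPolynomial (Fin 4) ℚ) (q q' : Fin N → ℕ)
    (hq : ∀ i, (F i).IsWeightedHomogeneous ![1, 1, 0, 0] (q i))
    (hr : ∀ i, (F i).IsWeightedHomogeneous ![0, 0, 1, 1] (q' i))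
    (hNC : ∀ z : Fin 4 → ℂ, (z 0 ≠ 0 ∨ z 1 ≠ 0) → (z 2 ≠ 0 ∨ z 3 ≠ 0) → LinearIndependent ℂ
      (fun i : {i : Fin N // aeval z (F i) = 0} => fun c : Fin 4 => aeval z (pderiv c (F i))))
    (τ : Fin p → Fin N) (e : Fin p → ℕ) (he : ∀ i, 1 ≤ e i) (Γ : Subgroup ℚˣ) (hΓ : Γ.FG)
    (ε : ℝ) (hε : 0 < ε) :
    ∃ (G : MvPolynomial (Fin 2) ℚ) (C : ℝ), G ≠ 0 ∧
      ∀ M : ℝ, 1 ≤ M → ∀ (x : Fin 4 → ℤ) (y : Fin p → ℤ) (w : Fin N → ℤ),
        (∀ c, P1.IsSparse Γ k M (x c)) → (∀ i, P1.IsSparse Γ k M (y i)) →
        (∀ σ, ∃ g ∈ Γ, (w σ : ℚ) = (g : ℚ)) →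
        (∀ σ, aeval (fun c => (x c : ℚ)) (F σ) =
          ((w σ * ∏ i with τ i = σ, y i ^ (e i) : ℤ) : ℚ)) →
        (∀ σ, aeval (fun c => (x c : ℚ)) (F σ) ≠ 0) →
        IsCoprime (x 0) (x 1) → IsCoprime (x 2) (x 3) → x 0 ≠ 0 → x 2 ≠ 0 →
        aeval (![(x 1 : ℚ) / x 0, (x 3 : ℚ) / x 2] : Fin 2 → ℚ) G ≠ 0 →
        ((∑ i, q i : ℕ) - 2 - ε) * Real.log (max |(x 0 : ℝ)| |(x 1 : ℝ)|) +
          ((∑ i, q' i : ℕ) - 2 - ε) * Real.log (max |(x 2 : ℝ)| |(x 3 : ℝ)|) ≤
          ∑ i, Real.log |(y i : ℝ)| + C * (1 + Real.log M) :=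
  P1.p1Main ncF csF hbF fwF N p k F q q' hq hr hNC τ e he Γ hΓ ε hε

end Pool.Agent.Results.MP_542436_nt.SparseNormalCrossings
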